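import Pool.Agent.H53.VK.Stm2

set_option autoImplicit false

namespace VK

theorem KFM_ev_seg {e : Fn} {p q z : Pt} (h : z ∈ openSegment ℝ p q) :
    ∃ a b : ℝ, 0 < a ∧ 0 < b ∧ a + b = 1 ∧ z.1 = a * p.1 + b * q.1 ∧ z.2 = a * p.2 + b * q.2 ∧
      ev e z = a * ev e p + b * ev e q := by
  obtain ⟨a, b, ha, hb, hab, rfl⟩ := h
  refine ⟨a, b, ha, hb, hab, by simp, by simp, ?_⟩
  simp only [ev, Prod.fst_add, Prod.snd_add, Prod.smul_fst, Prod.smul_snd, smul_eq_mul]
  have : b = 1 - a := by linarith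
  subst this
  ring

theorem KFM_star {e : Fn} {w y y' : Pt} (hy : ev e y = 0) (hy' : ev e y' = 0) (hw : ev e w ≠ 0)
    (hne : y ≠ y') : Disjoint (openSegment ℝ w y) (openSegment ℝ w y') := by
  rw [Set.disjoint_left]
  intro z hz hz'
  obtain ⟨a, b, ha, hb, hab, h1, h2, h3⟩ := KFM_ev_seg (e := e) hz
  obtain ⟨a', b', ha', hb', hab', h1', h2', h3'⟩ := KFM_ev_seg (e := e) hz'
  rw [hy, mul_zero, add_zero] at h3
  rw [hy', mul_zero, add_zero] at h3'
  have haa : a = a' := mul_right_cancel₀ hw (h3.symm.trans h3')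
  have hbb : b = b' := by linarith
  subst haa hbb
  apply hne
  apply Prod.ext
  · have : b * y.1 = b * y'.1 := by linarith
    exact mul_left_cancel₀ hb.ne' this
  · have : b * y.2 = b * y'.2 := by linarith
    exact mul_left_cancel₀ hb.ne' this

theorem KFM_line {e : Fn} {w x y y' : Pt} (hx : ev e x = 0) (hy' : ev e y' = 0) (hy : ev e y = 0)
    (hw : ev e w ≠ 0) : Disjoint (openSegment ℝ x y') (openSegment ℝ w y) := by
  rw [Set.disjoint_left]
  intro z hz hz'
  obtain ⟨a, b, ha, hb, hab, h1, h2, h3⟩ := KFM_ev_seg (e := e) hz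
  obtain ⟨a', b', ha', hb', hab', h1', h2', h3'⟩ := KFM_ev_seg (e := e) hz'
  rw [hx, hy', mul_zero, mul_zero, add_zero] at h3
  rw [hy, mul_zero, add_zero, h3] at h3'
  exact (mul_ne_zero ha'.ne' hw) h3'.symm

theorem KFM_one (X Y : Finset Pt) (e : Fn) (w : Pt) (hX : X.Nonempty) (hY : Y.Nonempty)
    (hl : ∀ z ∈ X ∪ Y, ev e z = 0) (hw : ev e w ≠ 0) :
    ∃ K, Good (insert w X) Y K ∧ K.card = Y.card + 1 ∧ ∀ k ∈ K, k.1 ∈ X ∨ k.1 = w := by
  classical
  obtain ⟨x0, hx0⟩ := hX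
  obtain ⟨y0, hy0⟩ := hY
  have hlX : ∀ z ∈ X, ev e z = 0 := fun z hz => hl z (Finset.mem_union_left _ hz)
  have hlY : ∀ z ∈ Y, ev e z = 0 := fun z hz => hl z (Finset.mem_union_right _ hz)
  have hx0w : x0 ≠ w := by
    rintro rfl
    exact hw (hlX _ hx0)
  refine ⟨insert (x0, y0) (Y.image fun y => (w, y)), ⟨?_, ?_⟩, ?_, ?_⟩
  · intro k hk
    rcases Finset.mem_insert.1 hk with rfl | hk
    · exact Finset.mem_product.2 ⟨Finset.mem_insert_of_mem hx0, hy0⟩
    · obtain ⟨y, hy, rfl⟩ := Finset.mem_image.1 hk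
      exact Finset.mem_product.2 ⟨Finset.mem_insert_self _ _, hy⟩
  · intro k hk k' hk' hne
    rcases Finset.mem_insert.1 hk with rfl | hk
    · rcases Finset.mem_insert.1 hk' with rfl | hk'
      · exact absurd rfl hne
      · obtain ⟨y, hy, rfl⟩ := Finset.mem_image.1 hk'
        exact KFM_line (hlX _ hx0) (hlY _ hy0) (hlY _ hy) hw
    · obtain ⟨y, hy, rfl⟩ := Finset.mem_image.1 hk
      rcases Finset.mem_insert.1 hk' with rfl | hk'
      · exact (KFM_line (hlX _ hx0) (hlY _ hy0) (hlY _ hy) hw).symm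
      · obtain ⟨y', hy', rfl⟩ := Finset.mem_image.1 hk'
        refine KFM_star (hlY _ hy) (hlY _ hy') hw ?_
        rintro rfl
        exact hne rfl
  · rw [Finset.card_insert_of_notMem, Finset.card_image_of_injective]
    · intro y y' h
      exact (Prod.mk.inj h).2
    · intro h
      obtain ⟨y, _, h2⟩ := Finset.mem_image.1 h
      exact hx0w (Prod.mk.inj h2).1.symm
  · intro k hk
    rcases Finset.mem_insert.1 hk with rfl | hk
    · exact Or.inl hx0
    · obtain ⟨y, hy, rfl⟩ := Finset.mem_image.1 hk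
      exact Or.inr rfl

theorem KFM_swap {A B : Finset Pt} {K : Finset (Pt × Pt)} (h : Good A B K) :
    Good B A (K.image Prod.swap) := by
  refine ⟨?_, ?_⟩
  · intro k hk
    obtain ⟨f, hf, rfl⟩ := Finset.mem_image.1 hk
    have := Finset.mem_product.1 (h.1 hf)
    exact Finset.mem_product.2 ⟨this.2, this.1⟩
  · intro k hk k' hk' hne
    obtain ⟨f, hf, rfl⟩ := Finset.mem_image.1 hk
    obtain ⟨f', hf', rfl⟩ := Finset.mem_image.1 hk'
    have h1 : f ≠ f' := by
      intro h; exact hne (by rw [h])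
    have := h.2 f hf f' hf' h1
    simp only [Prod.fst_swap, Prod.snd_swap]
    rw [openSegment_symm ℝ f.2 f.1, openSegment_symm ℝ f'.2 f'.1]
    exact this

theorem KFM_proved : KFM_stmt := by
  intro X Y e w hX hY hl hw
  refine ⟨KFM_one X Y e w hX hY hl hw, ?_⟩
  obtain ⟨K, hK, hc, hk⟩ := KFM_one Y X e w hY hX (fun z hz => hl z (by
    rcases Finset.mem_union.1 hz with h | h
    · exact Finset.mem_union_right _ h
    · exact Finset.mem_union_left _ h)) hw
  refine ⟨K.image Prod.swap, KFM_swap hK, ?_, ?_⟩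
  · rw [Finset.card_image_of_injective _ Prod.swap_injective, hc]
  · intro k hk'
    obtain ⟨f, hf, rfl⟩ := Finset.mem_image.1 hk'
    exact hk f hf

end VK
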